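import Pool.Agent.H50.NC.Targets

/-!
# MP_816b90_co: row SEP: different sides of an even prism are disjoint and not joined
-/

set_option autoImplicit false

namespace Pool.Agent.H7.NCK

open Pool.Agent.H48.ER Pool.Agent.H50.NC

theorem cn_union {V : Type} {G : SimpleGraph V} {D E : Set V} {u v : V} (hD : Cn G D)
    (hE : Cn G E) (hu : u ∈ D) (hv : v ∈ E) (huv : u = v ∨ G.Adj u v) : Cn G (D ∪ E) := by
  intro X hX hne hcl
  have key : ∀ {D E : Set V} {u v : V}, Cn G D → Cn G E → u ∈ D → v ∈ E →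
      (u = v ∨ G.Adj u v) → (∀ x ∈ X, ∀ w ∈ D ∪ E, G.Adj x w → w ∈ X) →
      (∃ x ∈ X, x ∈ D) → D ∪ E ⊆ X := by
    intro D E u v hD hE hu hv huv hcl hx
    have h1 : X ∩ D = D := hD (X ∩ D) Set.inter_subset_right
      (by obtain ⟨x, h1, h2⟩ := hx; exact ⟨x, h1, h2⟩)
      (fun x hx w hw hxw => ⟨hcl x hx.1 w (Or.inl hw) hxw, hw⟩)
    have h2 : u ∈ X := by
      have : u ∈ X ∩ D := by rw [h1]; exact hu
      exact this.1
    have h3 : v ∈ X := by
      rcases huv with rfl | h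
      · exact h2
      · exact hcl u h2 v (Or.inr hv) h
    have h4 : X ∩ E = E := hE (X ∩ E) Set.inter_subset_right ⟨v, h3, hv⟩
      (fun x hx w hw hxw => ⟨hcl x hx.1 w (Or.inr hw) hxw, hw⟩)
    rintro w (hw | hw)
    · have : w ∈ X ∩ D := by rw [h1]; exact hw
      exact this.1
    · have : w ∈ X ∩ E := by rw [h4]; exact hw
      exact this.1
  apply Set.Subset.antisymm hX
  obtain ⟨x, hx⟩ := hne
  rcases hX hx with h | h
  · exact key hD hE hu hv huv hcl ⟨x, hx, h⟩
  · have := key (D := E) (E := D) hE hD hv hu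
      (by rcases huv with h | h
          · exact Or.inl h.symm
          · exact Or.inr h.symm)
      (by intro x hx w hw hxw
          exact hcl x hx w (by rw [Set.union_comm]; exact hw) hxw) ⟨x, hx, h⟩
    rw [Set.union_comm]
    exact this

theorem pf_SEP (hLTW : T_LTW) (hDTA : T_DTA) : T_SEP := by
  intro V G a b n P i j S T hNOH hNOP hij hS hT u hu v hv
  by_contra hcon
  have huv : u = v ∨ G.Adj u v := by
    by_contra h
    push Not at h
    exact hcon ⟨h.1, h.2⟩
  have hui : u ∉ P i := by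
    intro h
    obtain ⟨h1, h2⟩ := hT.ne v hv u ⟨i, hij, h⟩
    rcases huv with e | e
    · exact h1 e.symm
    · exact h2 e.symm
  have hvj : v ∉ P j := by
    intro h
    obtain ⟨h1, h2⟩ := hS.ne u hu v ⟨j, Ne.symm hij, h⟩
    rcases huv with e | e
    · exact h1 e
    · exact h2 e
  obtain ⟨D, hDc, huD, hDS, hDP, d, hd, g, hg, hga, hgb, hdg⟩ := hDTA V G a b n P i S u hS hu hui
  obtain ⟨E, hEc, hvE, hET, hEP, e, he, h, hh, hha, hhb, heh⟩ := hDTA V G a b n P j T v hT hv hvj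
  have oneD : ∀ d ∈ D, ∀ (k : Fin 3) (g : V), g ∈ P k → G.Adj d g → k = i := by
    intro d hd k g hg hdg
    by_contra hk
    exact (hS.ne d (hDS hd) g ⟨k, hk, hg⟩).2 hdg
  have oneE : ∀ d ∈ E, ∀ (k : Fin 3) (g : V), g ∈ P k → G.Adj d g → k = j := by
    intro d hd k g hg hdg
    by_contra hk
    exact (hT.ne d (hET hd) g ⟨k, hk, hg⟩).2 hdg
  refine hLTW V G a b n P (D ∪ E) i j d e g h hNOH hNOP hS.pr
    (cn_union hDc hEc huD hvE huv) ?_ ?_ hij (Or.inl hd) hg hga hgb hdg (Or.inr he) hh heh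
  · rintro x (hx | hx) ⟨k, hk⟩
    · by_cases hki : k = i
      · subst hki
        exact hDP x hx hk
      · exact (hS.ne x (hDS hx) x ⟨k, hki, hk⟩).1 rfl
    · by_cases hkj : k = j
      · subst hkj
        exact hEP x hx hk
      · exact (hT.ne x (hET hx) x ⟨k, hkj, hk⟩).1 rfl
  · rintro x (hx | hx) k l g h hg hh hxg hxh
    · exact (oneD x hx k g hg hxg).trans (oneD x hx l h hh hxh).symm
    · exact (oneE x hx k g hg hxg).trans (oneE x hx l h hh hxh).symm

end Pool.Agent.H7.NCK
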