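import Pool.Agent.H50.NC.Targets

/-!
# MP_816b90_co: row TYP: the three types of neighbours of a side of an even prism
-/

set_option autoImplicit false

namespace Pool.Agent.H7.NCK

open Pool.Agent.H48.ER Pool.Agent.H50.NC

/-- the data for a vertex `w` outside of the prism: paths from `w` through `S` to `a i`, `b i` -/
structure Dat {V : Type} (G : SimpleGraph V) (a b : Fin 3 → V) (n : Fin 3 → ℕ)
    (P : Fin 3 → Set V) (i : Fin 3) (S : Set V) (w : V) (m : ℕ) (Q : Set V) (m' : ℕ)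
    (Q' : Set V) : Prop where
  noh : NOH G
  nop : NOP G
  sd : Sd G a b n P i S
  wv : w ∉ ver P
  wS : w ∉ S
  q : IP G m w (a i) Q
  qS : ∀ v ∈ Q, v = w ∨ v = a i ∨ v ∈ S
  q' : IP G m' w (b i) Q'
  qS' : ∀ v ∈ Q', v = w ∨ v = b i ∨ v ∈ S

variable {V : Type} {G : SimpleGraph V} {a b : Fin 3 → V} {n : Fin 3 → ℕ} {P : Fin 3 → Set V}
  {i : Fin 3} {S : Set V} {w : V} {m : ℕ} {Q : Set V} {m' : ℕ} {Q' : Set V}

theorem sd_flip (h : Sd G a b n P i S) : Sd G b a n P i S where
  pr := ⟨h.pr.1.flip, h.pr.2⟩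
  cn := h.cn
  int v hv h1 h2 := h.int v hv h2 h1
  ne := h.ne
  mx := h.mx

theorem Dat.flip (h : Dat G a b n P i S w m Q m' Q') : Dat G b a n P i S w m' Q' m Q where
  noh := h.noh
  nop := h.nop
  sd := sd_flip h.sd
  wv := h.wv
  wS := h.wS
  q := h.q'
  qS := h.qS'
  q' := h.q
  qS' := h.qS

theorem a_notMem (h : Sd G a b n P i S) {j : Fin 3} (hj : j ≠ i) : a i ∉ S := fun hs =>
  (h.ne _ hs (a j) ⟨j, hj, h.pr.1.a_mem j⟩).2 (h.pr.1.a_adj (Ne.symm hj))

theorem a_adj_xr (h : Sd G a b n P i S) {j : Fin 3} (hj : j ≠ i) {v : V} (hv : v ∈ P j) :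
    G.Adj (a i) v ↔ v = a j := by
  rw [h.pr.1.adj i j (Ne.symm hj) _ (h.pr.1.a_mem i) v hv]
  constructor
  · rintro (⟨_, h2⟩ | ⟨h1, _⟩)
    · exact h2
    · exact absurd h1 (h.pr.1.a_ne_b i i)
  · intro e
    exact Or.inl ⟨rfl, e⟩

/-- the adjacencies between the path `Q` and a path in the two other rungs -/
theorem Dat.q_adj (h : Dat G a b n P i S w m Q m' Q') {z t : V} {T : Set V} (hT : T ⊆ Xr P i)
    (hw : ∀ v ∈ T, G.Adj w v ↔ v = z) (ha : ∀ v ∈ T, G.Adj (a i) v ↔ v = t) :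
    ∀ u ∈ Q, ∀ v ∈ T, G.Adj u v ↔ (u = w ∧ v = z) ∨ (u = a i ∧ v = t) := by
  intro u hu v hv
  obtain ⟨j, hj, hvj⟩ := hT hv
  have haw : a i ≠ w := fun e => h.wv (e ▸ mem_ver (h.sd.pr.1.a_mem i))
  rcases h.qS u hu with rfl | rfl | hs
  · rw [hw v hv]
    constructor
    · intro e; exact Or.inl ⟨rfl, e⟩
    · rintro (⟨_, e⟩ | ⟨e, _⟩)
      · exact e
      · exact absurd e.symm haw
  · rw [ha v hv]
    constructor
    · intro e; exact Or.inr ⟨rfl, e⟩
    · rintro (⟨e, _⟩ | ⟨_, e⟩)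
      · exact absurd e haw
      · exact e
  · constructor
    · intro e
      exact absurd e (h.sd.ne u hs v (hT hv)).2
    · rintro (⟨e, _⟩ | ⟨e, _⟩)
      · exact absurd (e ▸ hs) h.wS
      · exact absurd (e ▸ hs) (a_notMem h.sd hj)

theorem Dat.q_dis (h : Dat G a b n P i S w m Q m' Q') {T : Set V} (hT : T ⊆ Xr P i) :
    Disjoint Q T := by
  rw [Set.disjoint_left]
  intro u hu hv
  obtain ⟨j, hj, hvj⟩ := hT hv
  rcases h.qS u hu with rfl | rfl | hs
  · exact h.wv ⟨j, hvj⟩
  · exact hj (h.sd.pr.1.rung (h.sd.pr.1.a_mem i) hvj).symm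
  · exact (h.sd.ne u hs u (hT hv)).1 rfl

/-- the parity of the path `Q` and of a path in the two other rungs -/
theorem Dat.par (h : Dat G a b n P i S w m Q m' Q') {p : ℕ} {z t : V} {T : Set V}
    (hT : T ⊆ Xr P i) (hp : IP G p z t T)
    (hw : ∀ v ∈ T, G.Adj w v ↔ v = z) (ha : ∀ v ∈ T, G.Adj (a i) v ↔ v = t)
    (h2 : 2 ≤ m + p) : Even (m + p) :=
  c_HOL V G m p w (a i) z t Q T h.noh h.q hp (h.q_dis hT) (h.q_adj hT hw ha) h2

/-- the first neighbour of `w` on a rung -/
theorem first_nb (hP : Prism G a b n P) (l : Fin 3) (hex : ∃ v ∈ P l, G.Adj w v) :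
    ∃ (p : ℕ) (g : V) (L : Set V), IP G p (a l) g L ∧ L ⊆ P l ∧ (∀ v ∈ L, G.Adj w v ↔ v = g) ∧
      G.Adj w g ∧ (b l ∈ L → g = b l) ∧ (g = b l → L = P l) := by
  obtain ⟨v, hv, hwv⟩ := hex
  obtain ⟨p, q, g, R1, R2, h1, h2, hg, _, hun, hin, hne, hfst⟩ :=
    c_FST V G (n l) (a l) (b l) (P l) {v | G.Adj w v} (hP.ip l) ⟨v, hv, hwv⟩
  refine ⟨p, g, R1, h1, ?_, ?_, hg, ?_, ?_⟩
  · rw [← hun]; exact Set.subset_union_left
  · intro v hv
    constructor
    · intro e; exact hfst v hv e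
    · rintro rfl; exact hg
  · intro hb
    have : b l ∈ R1 ∩ R2 := ⟨hb, h2.right_mem⟩
    rw [hin] at this
    exact this.symm
  · intro e
    apply Set.Subset.antisymm
    · rw [← hun]; exact Set.subset_union_left
    · rw [← hun]
      rintro x (hx | hx)
      · exact hx
      · have hq : q = 0 := by
          by_contra hq
          exact h2.ne (by omega) e
        subst hq
        have := h2.eq_of_zero
        rw [this.2] at hx
        rw [hx]
        exact h1.right_mem

theorem xr_of {l : Fin 3} (hl : l ≠ i) {L : Set V} (hL : L ⊆ P l) : L ⊆ Xr P i :=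
  fun _ hv => ⟨l, hl, hL hv⟩

/-- case 1, one side -/
theorem Dat.case1 (h : Dat G a b n P i S w m Q m' Q') (hm : 1 ≤ m) {j k : Fin 3} (hj : j ≠ i)
    (hk : k ≠ i) (hjk : j ≠ k) (hjx : ∀ l, l ≠ i → l = j ∨ l = k)
    (hwj : ∃ v ∈ P j, G.Adj w v) (hwk : ∃ v ∈ P k, G.Adj w v) : Al G b P i w ∨ Mj G a i w := by
  obtain ⟨p, g, L, hL, hLP, hLw, hg, hbL, hgL⟩ := first_nb h.sd.pr.1 j hwj
  obtain ⟨p', g', L', hL', hLP', hLw', hg', hbL', hgL'⟩ := first_nb h.sd.pr.1 k hwk
  have hP := h.sd.pr.1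
  by_cases hboth : g = b j ∧ g' = b k
  · left
    rintro v ⟨l, hl, hv⟩
    rcases hjx l hl with rfl | rfl
    · have hv' : v ∈ L := by rw [hgL hboth.1]; exact hv
      rw [hLw v hv', hboth.1]
      constructor
      · intro e; exact ⟨l, hl, e⟩
      · rintro ⟨l', _, e⟩
        have : l = l' := hP.rung hv (e ▸ hP.b_mem l')
        rw [e, this]
    · have hv' : v ∈ L' := by rw [hgL' hboth.2]; exact hv
      rw [hLw' v hv', hboth.2]
      constructor
      · intro e; exact ⟨l, hl, e⟩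
      · rintro ⟨l', _, e⟩
        have : l = l' := hP.rung hv (e ▸ hP.b_mem l')
        rw [e, this]
  · by_contra hcon
    push Not at hcon
    obtain ⟨_, hMj⟩ := hcon
    have hXE : XE G L L' (a j) (a k) := by
      intro u hu v hv
      rw [hP.adj j k hjk u (hLP hu) v (hLP' hv)]
      constructor
      · rintro (e | ⟨e1, e2⟩)
        · exact e
        · exact absurd ⟨hbL (e1 ▸ hu), hbL' (e2 ▸ hv)⟩ hboth
      · intro e; exact Or.inl e
    have hdis : Disjoint L L' := by
      rw [Set.disjoint_left]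
      intro u hu hv
      exact hP.ne_of_mem hjk (hLP hu) (hLP' hv) rfl
    have hpath := hL.rev.append hL' hdis hXE
    have hp0 : p = 0 → G.Adj w (a j) := by
      intro e
      subst e
      rw [hL.eq_of_zero.1]
      exact hg
    have hp0' : p' = 0 → G.Adj w (a k) := by
      intro e
      subst e
      rw [hL'.eq_of_zero.1]
      exact hg'
    have hne0 : ¬ (p = 0 ∧ p' = 0) := by
      rintro ⟨e1, e2⟩
      apply hMj
      left
      intro l hl
      rcases hjx l hl with rfl | rfl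
      · exact hp0 e1
      · exact hp0' e2
    have hev : Even (p + p' + 1) := by
      refine h.noh _ _ _ w _ hpath (by omega) ?_ hg hg' ?_
      · rintro (hu | hu)
        · exact h.wv ⟨j, hLP hu⟩
        · exact h.wv ⟨k, hLP' hu⟩
      · rintro v (hv | hv) hwv
        · exact Or.inl ((hLw v hv).mp hwv)
        · exact Or.inr ((hLw' v hv).mp hwv)
    have e1 : 2 ≤ m + p → Even (m + p) :=
      h.par (xr_of hj hLP) hL.rev hLw (fun v hv => a_adj_xr h.sd hj (hLP hv))
    have e2 : 2 ≤ m + p' → Even (m + p') :=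
      h.par (xr_of hk hLP') hL'.rev hLw' (fun v hv => a_adj_xr h.sd hk (hLP' hv))
    by_cases hm1 : m = 1
    · subst hm1
      have hwa : G.Adj w (a i) := h.q.adj_iff.mpr rfl
      have q1 : p ≠ 0 := fun e => hMj (Or.inr ⟨hwa, j, hj, hp0 e⟩)
      have q2 : p' ≠ 0 := fun e => hMj (Or.inr ⟨hwa, k, hk, hp0' e⟩)
      have r1 := e1 (by omega)
      have r2 := e2 (by omega)
      rw [Nat.even_iff] at hev r1 r2
      omega
    · have r1 := e1 (by omega)
      have r2 := e2 (by omega)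
      rw [Nat.even_iff] at hev r1 r2
      omega

/-- the last part of a path in the rung `j`, continued through the rung `k` to the corner `a k` -/
theorem ext_path (hP : Prism G a b n P) {j k : Fin 3} (hjk : j ≠ k) {p : ℕ} {h : V} {L : Set V}
    (hL : IP G p h (b j) L) (hLP : L ⊆ P j) (haL : a j ∉ L) :
    IP G (p + n k + 1) h (a k) (L ∪ P k) := by
  refine hL.append (hP.ip k).rev ?_ ?_
  · rw [Set.disjoint_left]
    intro u hu hv
    exact hP.ne_of_mem hjk (hLP hu) hv rfl
  · intro u hu v hv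
    rw [hP.adj j k hjk u (hLP hu) v hv]
    constructor
    · rintro (⟨e, _⟩ | e)
      · exact absurd (e ▸ hu) haL
      · exact e
    · intro e; exact Or.inr e

/-- the parity of the last part -/
theorem Dat.par2 (h : Dat G a b n P i S w m Q m' Q') {j k : Fin 3} (hj : j ≠ i) (hk : k ≠ i)
    (hjk : j ≠ k) (hwk : ∀ v ∈ P k, ¬ G.Adj w v) {p : ℕ} {z : V} {L : Set V}
    (hL : IP G p z (b j) L) (hLP : L ⊆ P j) (haL : a j ∉ L) (hLw : ∀ v ∈ L, G.Adj w v ↔ v = z) :
    Odd (m + p) := by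
  have hP := h.sd.pr.1
  have hpath := ext_path hP hjk hL hLP haL
  have hpos := hP.pos k
  have hev := h.sd.pr.2 k
  have hsub : L ∪ P k ⊆ Xr P i := by
    rintro v (hv | hv)
    · exact ⟨j, hj, hLP hv⟩
    · exact ⟨k, hk, hv⟩
  have hw : ∀ v ∈ L ∪ P k, G.Adj w v ↔ v = z := by
    rintro v (hv | hv)
    · exact hLw v hv
    · constructor
      · intro e; exact absurd e (hwk v hv)
      · rintro rfl
        exact absurd rfl (hP.ne_of_mem hjk (hLP hL.left_mem) hv)
  have ha : ∀ v ∈ L ∪ P k, G.Adj (a i) v ↔ v = a k := by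
    rintro v (hv | hv)
    · rw [a_adj_xr h.sd hj (hLP hv)]
      constructor
      · rintro rfl; exact absurd hv haL
      · rintro rfl
        exact absurd rfl (hP.ne_of_mem hjk (hLP hv) (hP.a_mem k))
    · exact a_adj_xr h.sd hk hv
  have := h.par hsub hpath hw ha (by omega)
  rw [Nat.even_iff] at this hev
  rw [Nat.odd_iff]
  omega

/-- in the case of two adjacent neighbours of `w` in the rung: the prism -/
theorem Dat.tri (h : Dat G a b n P i S w m Q m' Q') (hm : 1 ≤ m) {j k : Fin 3} (hj : j ≠ i)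
    (hk : k ≠ i) (hjk : j ≠ k) (hwk : ∀ v ∈ P k, ¬ G.Adj w v) {p p' : ℕ} {g z : V} {L L' : Set V}
    (hL : IP G p (a j) g L) (hLP : L ⊆ P j) (hL' : IP G p' z (b j) L') (hLP' : L' ⊆ P j)
    (hdis : Disjoint L L') (hx : XE G L L' g z) (hw : ∀ v ∈ L ∪ L', G.Adj w v ↔ v = g ∨ v = z) :
    Even p := by
  have hP := h.sd.pr.1
  rcases Nat.eq_zero_or_pos p with rfl | hp
  · exact Even.zero
  have haL : a j ∉ L' := fun e => Set.disjoint_left.mp hdis hL.left_mem e
  have hpath := ext_path hP hjk hL' hLP' haL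
  have hgz : g ≠ z := fun e => Set.disjoint_left.mp hdis hL.right_mem (e ▸ hL'.left_mem)
  have hwL : ∀ v ∈ L, G.Adj w v ↔ v = g := by
    intro v hv
    rw [hw v (Or.inl hv)]
    constructor
    · rintro (e | e)
      · exact e
      · exact absurd (e ▸ hv) (fun hz => Set.disjoint_left.mp hdis hz hL'.left_mem)
    · intro e; exact Or.inl e
  have hwL' : ∀ v ∈ L' ∪ P k, G.Adj w v ↔ v = z := by
    rintro v (hv | hv)
    · rw [hw v (Or.inr hv)]
      constructor
      · rintro (e | e)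
        · exact absurd (e ▸ hv) (fun hz => Set.disjoint_left.mp hdis hL.right_mem hz)
        · exact e
      · intro e; exact Or.inr e
    · constructor
      · intro e; exact absurd e (hwk v hv)
      · rintro rfl
        exact absurd rfl (hP.ne_of_mem hjk (hLP' hL'.left_mem) hv)
  have haL1 : ∀ v ∈ L, G.Adj (a i) v ↔ v = a j := fun v hv => a_adj_xr h.sd hj (hLP hv)
  have haL2 : ∀ v ∈ L' ∪ P k, G.Adj (a i) v ↔ v = a k := by
    rintro v (hv | hv)
    · rw [a_adj_xr h.sd hj (hLP' hv)]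
      constructor
      · rintro rfl; exact absurd hv haL
      · rintro rfl
        exact absurd rfl (hP.ne_of_mem hjk (hLP' hv) (hP.a_mem k))
    · exact a_adj_xr h.sd hk hv
  have hsub1 : L ⊆ Xr P i := xr_of hj hLP
  have hsub2 : L' ∪ P k ⊆ Xr P i := by
    rintro v (hv | hv)
    · exact ⟨j, hj, hLP' hv⟩
    · exact ⟨k, hk, hv⟩
  have hpr : Prism G ![w, g, z] ![a i, a j, a k] ![m, p, p' + n k + 1] ![Q, L, L' ∪ P k] := by
    refine mk3 h.q hL.rev hpath hm hp (by omega) (h.q_dis hsub1) (h.q_dis hsub2) ?_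
      (h.q_adj hsub1 hwL haL1) (h.q_adj hsub2 hwL' haL2) ?_
    · rw [Set.disjoint_left]
      rintro v hv (hv' | hv')
      · exact Set.disjoint_left.mp hdis hv hv'
      · exact hP.ne_of_mem hjk (hLP hv) hv' rfl
    · rintro u hu v (hv | hv)
      · rw [hx u hu v hv]
        constructor
        · intro e; exact Or.inl e
        · rintro (e | ⟨_, e⟩)
          · exact e
          · exact absurd e (hP.ne_of_mem hjk (hLP' hv) (hP.a_mem k))
      · rw [hP.adj j k hjk u (hLP hu) v hv]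
        constructor
        · rintro (e | ⟨e, _⟩)
          · exact Or.inr e
          · exact absurd (e ▸ hu) (fun hb => Set.disjoint_left.mp hdis hb hL'.right_mem)
        · rintro (⟨_, e⟩ | e)
          · exact absurd (e ▸ hv) (fun hz => hP.ne_of_mem hjk (hLP' hL'.left_mem) hz rfl)
          · exact Or.inl e
  exact (c_EVN V G _ _ _ _ h.noh hpr).2 h.nop 1

/-- case 2, one side: `w` sees exactly one of the two rungs -/
theorem Dat.case2 (h : Dat G a b n P i S w m Q m' Q') (hm : 1 ≤ m) (hm' : 1 ≤ m') {j k : Fin 3}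
    (hj : j ≠ i) (hk : k ≠ i) (hjk : j ≠ k) (hwj : ∃ v ∈ P j, G.Adj w v)
    (hwk : ∀ v ∈ P k, ¬ G.Adj w v) : G.Adj w (a i) ∧ G.Adj w (a j) := by
  have hP := h.sd.pr.1
  have hevj := h.sd.pr.2 j
  have hevk := h.sd.pr.2 k
  have hwP : w ∉ P j := fun e => h.wv ⟨j, e⟩
  have posj := hP.pos j
  rcases c_TRI V G (n j) (a j) (b j) w (P j) (hP.ip j) hwP hwj with
    ⟨g, p, p', L, L', hL, hL', hpp, hun, hin, hne, hw⟩ |
    ⟨g, z, p, p', L, L', hL, hL', hpp, hun, hdis, hx, hw⟩ |
    ⟨g, z, p, p', L, L', hL, hL', hpp, hLP, hLP', hdis, hne, hw, hw'⟩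
  · -- exactly one neighbour
    have hLP : L ⊆ P j := by rw [← hun]; exact Set.subset_union_left
    have hLP' : L' ⊆ P j := by rw [← hun]; exact Set.subset_union_right
    have e1 : 2 ≤ m + p → Even (m + p) :=
      h.par (xr_of hj hLP) hL.rev (fun v hv => hw v (hLP hv))
        (fun v hv => a_adj_xr h.sd hj (hLP hv))
    have e2 : a j ∉ L' → Odd (m + p') := fun haL =>
      h.par2 hj hk hjk hwk hL' hLP' haL (fun v hv => hw v (hLP' hv))
    have hga : p = 0 → g = a j := fun e => by subst e; exact hL.eq_of_zero.1.symm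
    have haL : p ≠ 0 → a j ∉ L' := by
      intro hp ha
      have : a j ∈ L ∩ L' := ⟨hL.left_mem, ha⟩
      rw [hin] at this
      exact hL.ne (by omega) this
    by_cases hp : p = 0
    · by_cases hm1 : m = 1
      · subst hm1
        refine ⟨h.q.adj_iff.mpr rfl, ?_⟩
        rw [← hga hp]
        exact (hw g (hLP hL.right_mem)).mpr rfl
      · exfalso
        -- the other side
        have e3 : 2 ≤ m' + p' → Even (m' + p') :=
          h.flip.par (xr_of hj hLP') hL' (fun v hv => hw v (hLP' hv))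
            (fun v hv => a_adj_xr h.flip.sd hj (hLP' hv))
        have hbL : b j ∉ L := by
          intro hb
          have : b j ∈ L ∩ L' := ⟨hb, hL'.right_mem⟩
          rw [hin] at this
          exact hL'.ne (by omega) this.symm
        have e4 : Odd (m' + p) :=
          h.flip.par2 hj hk hjk hwk hL.rev hLP hbL (fun v hv => hw v (hLP hv))
        have r1 := e1 (by omega)
        have r3 := e3 (by omega)
        rw [Nat.even_iff] at r1 r3 hevj
        rw [Nat.odd_iff] at e4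
        omega
    · exfalso
      have r1 := e1 (by omega)
      have r2 := e2 (haL hp)
      rw [Nat.even_iff] at r1 hevj
      rw [Nat.odd_iff] at r2
      omega
  · -- two adjacent neighbours
    exfalso
    have hLP : L ⊆ P j := by rw [← hun]; exact Set.subset_union_left
    have hLP' : L' ⊆ P j := by rw [← hun]; exact Set.subset_union_right
    have r1 : Even p := h.tri hm hj hk hjk hwk hL hLP hL' hLP' hdis hx
      (fun v hv => hw v (by rw [← hun]; exact hv))
    have hx' : XE G L' L z g := by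
      intro u hu v hv
      rw [SimpleGraph.adj_comm, hx v hv u hu]
      exact and_comm
    have r2 : Even p' := h.flip.tri hm' hj hk hjk hwk hL'.rev hLP' hL.rev hLP hdis.symm hx'
      (fun v hv => by rw [hw v (by rw [← hun, Set.union_comm]; exact hv)]; exact or_comm)
    rw [Nat.even_iff] at r1 r2 hevj
    omega
  · -- first and last neighbour
    have e1 : 2 ≤ m + p → Even (m + p) :=
      h.par (xr_of hj hLP) hL.rev hw (fun v hv => a_adj_xr h.sd hj (hLP hv))
    have haL : a j ∉ L' := fun e => Set.disjoint_left.mp hdis hL.left_mem e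
    have hbL : b j ∉ L := fun e => Set.disjoint_left.mp hdis e hL'.right_mem
    have e2 : Odd (m + p') := h.par2 hj hk hjk hwk hL' hLP' haL hw'
    have hpath := ext_path hP hjk hL' hLP' haL
    have hpath2 : IP G (p + (p' + n k + 1) + 1) g z (L ∪ (L' ∪ P k)) := by
      refine hL.rev.append hpath.rev ?_ ?_
      · rw [Set.disjoint_left]
        rintro v hv (hv' | hv')
        · exact Set.disjoint_left.mp hdis hv hv'
        · exact hP.ne_of_mem hjk (hLP hv) hv' rfl
      · rintro u hu v (hv | hv)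
        · constructor
          · intro e; exact absurd e (hne u hu v hv)
          · rintro ⟨_, e⟩
            exact absurd e (hP.ne_of_mem hjk (hLP' hv) (hP.a_mem k))
        · rw [hP.adj j k hjk u (hLP hu) v hv]
          constructor
          · rintro (e | ⟨e, _⟩)
            · exact e
            · exact absurd (e ▸ hu) hbL
          · intro e; exact Or.inl e
    have e3 : Even (p + (p' + n k + 1) + 1) := by
      refine h.noh _ _ _ w _ hpath2 (by omega) ?_ ((hw g hL.right_mem).mpr rfl)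
        ((hw' z hL'.left_mem).mpr rfl) ?_
      · rintro (hu | hu | hu)
        · exact hwP (hLP hu)
        · exact hwP (hLP' hu)
        · exact h.wv ⟨k, hu⟩
      · rintro v (hv | hv | hv) hwv
        · exact Or.inl ((hw v hv).mp hwv)
        · exact Or.inr ((hw' v hv).mp hwv)
        · exact absurd hwv (hwk v hv)
    by_cases hmp : m = 1 ∧ p = 0
    · obtain ⟨rfl, rfl⟩ := hmp
      refine ⟨h.q.adj_iff.mpr rfl, ?_⟩
      rw [hL.eq_of_zero.1]
      exact (hw g hL.right_mem).mpr rfl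
    · exfalso
      have r1 := e1 (by omega)
      rw [Nat.even_iff] at r1 e3 hevk
      rw [Nat.odd_iff] at e2
      omega

theorem idx (i : Fin 3) : ∃ j k : Fin 3, j ≠ i ∧ k ≠ i ∧ j ≠ k ∧ ∀ l, l ≠ i → l = j ∨ l = k := by
  fin_cases i
  · exact ⟨1, 2, by decide, by decide, by decide, by decide⟩
  · exact ⟨0, 2, by decide, by decide, by decide, by decide⟩
  · exact ⟨0, 1, by decide, by decide, by decide, by decide⟩

/-- the path from `w` through the side to the corner `a i` -/
theorem side_path (h : Sd G a b n P i S) (hw : Nb G S w) (hwv : w ∉ ver P) :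
    ∃ (m : ℕ) (Q : Set V), IP G m w (a i) Q ∧ 1 ≤ m ∧ ∀ v ∈ Q, v = w ∨ v = a i ∨ v ∈ S := by
  have hP := h.pr.1
  obtain ⟨g, g0, gn, gi, ga, gR⟩ := hP.ip i
  have hpos := hP.pos i
  have hev := h.pr.2 i
  have h2 : 2 ≤ n i := by
    rw [Nat.even_iff] at hev
    omega
  have hg1 : g 1 ∈ P i := by rw [gR]; exact ⟨1, hpos, rfl⟩
  have hr : g 1 ∈ S := by
    refine h.int _ hg1 ?_ ?_
    · intro e
      have := gi 1 0 hpos (by omega) (e.trans g0.symm)
      omega
    · intro e
      have := gi 1 (n i) hpos le_rfl (e.trans gn.symm)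
      omega
  have hadj : G.Adj (a i) (g 1) := by
    have := (ga 0 1 (by omega) hpos).mpr (Or.inl rfl)
    rw [g0] at this
    exact this
  obtain ⟨_, s, hs, hws⟩ := hw
  have hc : Cn G (insert w (insert (a i) S)) := by
    intro X hX hne hcl
    have hsome : ∃ x ∈ X, x ∈ S := by
      obtain ⟨x, hx⟩ := hne
      rcases hX hx with rfl | rfl | hxS
      · exact ⟨s, hcl _ hx s (Or.inr (Or.inr hs)) hws, hs⟩
      · exact ⟨g 1, hcl _ hx (g 1) (Or.inr (Or.inr hr)) hadj, hr⟩
      · exact ⟨x, hx, hxS⟩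
    have h1 : X ∩ S = S := h.cn (X ∩ S) Set.inter_subset_right
      (by obtain ⟨x, h1, h2⟩ := hsome; exact ⟨x, h1, h2⟩)
      (fun x hx w hw hxw => ⟨hcl x hx.1 w (Or.inr (Or.inr hw)) hxw, hw⟩)
    have h3 : S ⊆ X := fun v hv => by
      have : v ∈ X ∩ S := by rw [h1]; exact hv
      exact this.1
    apply Set.Subset.antisymm hX
    rintro v (rfl | rfl | hv)
    · exact hcl s (h3 hs) v (Or.inl rfl) hws.symm
    · exact hcl (g 1) (h3 hr) _ (Or.inr (Or.inl rfl)) hadj.symm
    · exact h3 hv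
  obtain ⟨m, Q, hQ, hQs⟩ := c_CON V G _ w (a i) hc (Or.inl rfl) (Or.inr (Or.inl rfl))
  refine ⟨m, Q, hQ, ?_, fun v hv => hQs hv⟩
  by_contra hm
  have : m = 0 := by omega
  subst this
  exact hwv (hQ.eq_of_zero.1 ▸ mem_ver (hP.a_mem i))

theorem typ_corner (h : Sd G a b n P i S) : Al G a P i (a i) := by
  rintro v ⟨l, hl, hv⟩
  rw [a_adj_xr h hl hv]
  constructor
  · intro e; exact ⟨l, hl, e⟩
  · rintro ⟨l', _, e⟩
    have : l = l' := h.pr.1.rung hv (e ▸ h.pr.1.a_mem l')
    rw [e, this]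

theorem pf_TYP : T_TYP := by
  intro V G a b n P i S w hNOH hNOP hS hw
  have hP := hS.pr.1
  by_cases hwv : w ∈ ver P
  · obtain ⟨l, hl⟩ := hwv
    have hli : l = i := by
      by_contra hli
      obtain ⟨_, s, hs, hws⟩ := hw
      exact (hS.ne s hs w ⟨l, hli, hl⟩).2 hws.symm
    subst hli
    by_cases h1 : w = a l
    · left
      rw [h1]
      exact typ_corner hS
    · by_cases h2 : w = b l
      · right; left
        rw [h2]
        exact typ_corner (sd_flip hS)
      · exact absurd (hS.int w hl h1 h2) hw.1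
  · obtain ⟨m, Q, hQ, hm, hQS⟩ := side_path hS hw hwv
    obtain ⟨m', Q', hQ', hm', hQS'⟩ := side_path (sd_flip hS) hw hwv
    have hD : Dat G a b n P i S w m Q m' Q' := ⟨hNOH, hNOP, hS, hwv, hw.1, hQ, hQS, hQ', hQS'⟩
    obtain ⟨j, k, hj, hk, hjk, hjx⟩ := idx i
    have hsee : ∃ v ∈ Xr P i, G.Adj w v := by
      obtain ⟨hwS, s, hs, hws⟩ := hw
      exact hS.mx s hs w hwS hws.symm
    by_cases h1 : ∃ v ∈ P j, G.Adj w v
    · by_cases h2 : ∃ v ∈ P k, G.Adj w v
      · have c1 := hD.case1 hm hj hk hjk hjx h1 h2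
        have c2 := hD.flip.case1 hm' hj hk hjk hjx h1 h2
        rcases c1 with c1 | c1
        · exact Or.inr (Or.inl c1)
        · rcases c2 with c2 | c2
          · exact Or.inl c2
          · exact Or.inr (Or.inr ⟨c1, c2⟩)
      · have h2' : ∀ v ∈ P k, ¬ G.Adj w v := fun v hv e => h2 ⟨v, hv, e⟩
        have c1 := hD.case2 hm hm' hj hk hjk h1 h2'
        have c2 := hD.flip.case2 hm' hm hj hk hjk h1 h2'
        exact Or.inr (Or.inr ⟨Or.inr ⟨c1.1, j, hj, c1.2⟩, Or.inr ⟨c2.1, j, hj, c2.2⟩⟩)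
    · have h1' : ∀ v ∈ P j, ¬ G.Adj w v := fun v hv e => h1 ⟨v, hv, e⟩
      have h2 : ∃ v ∈ P k, G.Adj w v := by
        obtain ⟨v, ⟨l, hl, hv⟩, hwv⟩ := hsee
        rcases hjx l hl with rfl | rfl
        · exact absurd hwv (h1' v hv)
        · exact ⟨v, hv, hwv⟩
      have c1 := hD.case2 hm hm' hk hj (Ne.symm hjk) h2 h1'
      have c2 := hD.flip.case2 hm' hm hk hj (Ne.symm hjk) h2 h1'
      exact Or.inr (Or.inr ⟨Or.inr ⟨c1.1, k, hk, c1.2⟩, Or.inr ⟨c2.1, k, hk, c2.2⟩⟩)

end Pool.Agent.H7.NCK
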